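import Pool.Agent.H44.EQ.Targets
import Pool.Agent.H68.GC.POW

/-!
Row HHH of the board eqi: the canonical Olsak map.
-/

set_option autoImplicit false

namespace Pool.Agent.H86.EQ

open Pool.Agent.H44.EQ Pool.Agent.H53.GC Pool.Agent.H53.NR Pool.Agent.H68.BP Pool.Agent.H58.SF
open Classical

theorem pat_mem {X : Type} (j : Fin 3) (x y : X) (i : Fin 6) :
    pat j x y i = x ∨ pat j x y i = y := by
  simp only [pat]
  fin_cases j <;> fin_cases i <;> simp

theorem polMap_of_goodMap {V X : Type} {σ : Sig} [LinearOrder V] {𝔸 : Str σ V} {M : ℕ}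
    {c : V → V → X} {N : X} (hE : SetE 𝔸 M c N) {h : (Fin 6 → V) → (Fin 6 → V) → Option X}
    (hg : GoodMap 𝔸 M (ceq c) h) : PolMap 𝔸 M c (Fin 6) h := by
  refine ⟨fun v => ?_, fun s v hv => ?_⟩
  · obtain ⟨x, _, _, h3⟩ := hg.rel none 1 (fun _ => 0) (fun _ => v) (fun _ => trivial)
      (fun _ _ _ => rfl)
    have hM : 0 < M := lt_of_lt_of_le (by norm_num) hE.three
    have h4 := h3 ⟨0, hM⟩ ⟨0, hM⟩
    rw [← h4]
    unfold ceq
    rw [if_pos rfl]
  · obtain ⟨x, h1, _, h3⟩ := hg.rel s (arP σ M s) id v hv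
      (fun a b hab => by rw [show a = b from hab])
    exact ⟨x, h1, h3⟩

theorem pf_HHH (hC : T_CNG) (hT : T_TRF) : T_HHH := by
  intro σ V X _ 𝔸 M c N hE hcount hol hram hK3
  have hfin : Finite X := hE.fin
  have hne : Nonempty V := hE.ne
  have hfinO : Finite (Option X) := inferInstance
  obtain ⟨h, hgood⟩ := Pool.Agent.H68.GC.pf_POW σ V (Option X) 𝔸 M (ceq c) hcount hne hfinO hol hK3
  have hpol : PolMap 𝔸 M c (Fin 6) h := polMap_of_goodMap hE hgood
  obtain ⟨h', htinv, hlift⟩ := hC V X (Fin 6) (Option X) c hram h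
  refine ⟨h', hT σ V X 𝔸 M c N hE (Fin 6) h h' hpol hlift, htinv, fun r x y x' y' => ?_⟩
  obtain ⟨g, _, _, hg⟩ := hlift {x, y, x', y'}
  have hmem1 : ∀ (r : Fin 3) (i : Fin 6), pat r x y i ∈ ({x, y, x', y'} : Finset V) := by
    intro r i
    rcases pat_mem r x y i with e | e <;> rw [e] <;> simp
  have hmem2 : ∀ (r : Fin 3) (i : Fin 6), pat r x' y' i ∈ ({x, y, x', y'} : Finset V) := by
    intro r i
    rcases pat_mem r x' y' i with e | e <;> rw [e] <;> simp
  have key : ∀ r : Fin 3, h' (pat r x y) (pat r x' y') =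
      h (pat r (g x) (g y)) (pat r (g x') (g y')) := by
    intro r
    rw [hg (pat r x y) (pat r x' y') (hmem1 r) (hmem2 r)]
    congr 1
    · funext i
      exact pat_map g r x y i
    · funext i
      exact pat_map g r x' y' i
  rw [key r, key 0]
  exact hgood.exact r (g x) (g y) (g x') (g y')

end Pool.Agent.H86.EQ
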