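import Pool.Agent.H38.EQ.Targets

/-!
# Equidistribution of admissible tuples, row SQM: medium squarefull part
-/

set_option autoImplicit false

open Finset

namespace Pool.Agent.H86.EQ.SQM

open Pool.Agent.H38.AE.Statement (Admissible radical)
open Pool.Agent.H38.AT (height)
open Pool.Agent.H82.AS (Sqf ex)
open Pool.Agent.H38.EQ

theorem pr_pos {n : ℕ} {x : Fin n → ℤ} (hx : Admissible x) : 1 ≤ pr x := by
  unfold pr
  have h : (∏ i, x i) ≠ 0 := Finset.prod_ne_zero_iff.2 fun i _ => hx.1 i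
  exact Nat.one_le_iff_ne_zero.2 (Int.natAbs_ne_zero.2 h)

theorem rad_mul_ex {n : ℕ} {x : Fin n → ℤ} :
    (pr x : ℝ) = (radical (∏ i, x i) : ℝ) * ex (pr x) := by
  have h1 : (radical (∏ i, x i)) = Pool.Agent.H38.PS.pd (pr x).primeFactors := rfl
  have h2 : (0 : ℝ) < (Pool.Agent.H38.PS.pd (pr x).primeFactors : ℝ) := by
    have : 0 < Pool.Agent.H38.PS.pd (pr x).primeFactors :=
      Finset.prod_pos fun _ hp => (Nat.prime_of_mem_primeFactors hp).pos
    exact_mod_cast this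
  rw [h1]
  unfold ex
  field_simp

theorem pf_SQM (h1 : T_ADN) (h2 : T_SQN) (h3 : Pool.Agent.H82.AS.T_SQB) : T_SQM := by
  intro n hn
  obtain ⟨C1, hC1, hA⟩ := h1 n hn
  obtain ⟨C2, hC2, hS⟩ := h2 n hn
  have hn0 : (0 : ℝ) < n := by exact_mod_cast (by omega : 0 < n)
  have hn3 : (3 : ℝ) ≤ n := by exact_mod_cast hn
  refine ⟨1 / (6 * (n : ℝ)), 1 / (8 * (n : ℝ)), C1 * C2 + C1, by positivity, by positivity,
    by positivity, ?_⟩
  intro X Y F hX hY hF
  have hX0 : 0 < X := by linarith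
  set η : ℝ := 1 / (6 * (n : ℝ)) with hη
  have hη0 : 0 < η := by positivity
  set a : ℝ := 1 - 1 / (n : ℝ) with ha
  set b : ℝ := 1 - 2 / (n : ℝ) with hb
  have ha0 : 0 ≤ a := by
    rw [ha, sub_nonneg, div_le_one hn0]; linarith
  have hb0 : 0 ≤ b := by
    rw [hb, sub_nonneg, div_le_one hn0]; linarith
  have hb1 : b ≤ 1 := by
    rw [hb]
    have : 0 ≤ 2 / (n : ℝ) := by positivity
    linarith
  classical
  set G : Finset ℕ := F.image (fun x => Pool.Agent.H82.AS.sq (pr x)) with hG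
  -- properties of the members of `G`
  have hGp : ∀ D ∈ G, Sqf D ∧ 1 ≤ D ∧ Y ≤ (D : ℝ) ∧ (D : ℝ) ≤ X ^ η ∧ 1 ≤ ex D ∧ ex D ≤ D := by
    intro D hD
    rw [hG, Finset.mem_image] at hD
    obtain ⟨x, hx, rfl⟩ := hD
    obtain ⟨hx1, hx2, hx3, hx4⟩ := hF x hx
    have hp := pr_pos hx1
    obtain ⟨hs1, hs2, hs3, -⟩ := h3 (pr x) hp
    have hs0 : 1 ≤ Pool.Agent.H82.AS.sq (pr x) := Nat.pos_of_dvd_of_pos hs2 hp
    obtain ⟨-, -, -, -, hs5, hs6, -⟩ := h3 _ hs0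
    exact ⟨hs1, hs0, hx3, hx4, (hs5 _ dvd_rfl).1, hs6⟩
  -- the number of members of `G`
  have hGc : (G.card : ℝ) ≤ X ^ η := by
    have h5 : G ⊆ Finset.Icc 1 ⌊X ^ η⌋₊ := by
      intro D hD
      obtain ⟨-, hD1, -, hD2, -⟩ := hGp D hD
      exact Finset.mem_Icc.2 ⟨hD1, Nat.le_floor hD2⟩
    have h6 := Finset.card_le_card h5
    rw [Nat.card_Icc, Nat.add_sub_cancel] at h6
    exact (Nat.cast_le.2 h6).trans (Nat.floor_le (Real.rpow_nonneg hX0.le _))
  -- the fibres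
  have hfib : ∀ D ∈ G, (((F.filter (fun x => Pool.Agent.H82.AS.sq (pr x) = D)).card : ℕ) : ℝ) ≤
      C1 * (X ^ a * ((D : ℝ) ^ (1 / (4 * (n : ℝ))) * ex D ^ a / D)) +
        C1 * (X ^ (b + 2 * η)) := by
    intro D hD
    obtain ⟨hD1, hD2, hD3, hD4, hD5, hD6⟩ := hGp D hD
    have hD0 : (0 : ℝ) < D := by exact_mod_cast hD2
    have hD1' : (1 : ℝ) ≤ D := by exact_mod_cast hD2
    have hex0 : 0 < ex D := by linarith
    have hT1 : 1 ≤ X * ex D := by nlinarith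
    have h5 := (hA D (X * ex D) (F.filter (fun x => Pool.Agent.H82.AS.sq (pr x) = D)) hD2 hT1
      (fun x hx => by
        rw [Finset.mem_filter] at hx
        obtain ⟨hx0, hxD⟩ := hx
        obtain ⟨hx1, hx2, hx3, hx4⟩ := hF x hx0
        have hp := pr_pos hx1
        obtain ⟨hs1, hs2, hs3, -⟩ := h3 (pr x) hp
        refine ⟨hx1, ?_, ?_⟩
        · rw [← hxD]; exact hs2
        · rw [rad_mul_ex, ← hs3, hxD]
          exact mul_le_mul_of_nonneg_right hx2 hex0.le)).1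
    refine h5.trans ?_
    have e1 : (D : ℝ) ^ (1 / (8 * (n : ℝ))) ≤ (D : ℝ) ^ (1 / (4 * (n : ℝ))) := by
      apply Real.rpow_le_rpow_of_exponent_le hD1'
      apply one_div_le_one_div_of_le (by positivity)
      nlinarith
    have e2 : (X * ex D) ^ a = X ^ a * ex D ^ a := Real.mul_rpow hX0.le hex0.le
    have e3 : (D : ℝ) ^ (1 / (8 * (n : ℝ))) * (X * ex D) ^ b ≤ X ^ (b + 2 * η) := by
      have e4 : (D : ℝ) ^ (1 / (8 * (n : ℝ))) ≤ X ^ η := by
        have e5 : (D : ℝ) ^ (1 / (8 * (n : ℝ))) ≤ (D : ℝ) ^ (1 : ℝ) := by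
          apply Real.rpow_le_rpow_of_exponent_le hD1'
          rw [div_le_one (by positivity)]
          nlinarith
        rw [Real.rpow_one] at e5
        exact e5.trans hD4
      have e6 : (X * ex D) ^ b ≤ X ^ (b + η) := by
        rw [Real.mul_rpow hX0.le hex0.le, Real.rpow_add hX0]
        apply mul_le_mul_of_nonneg_left _ (Real.rpow_nonneg hX0.le _)
        have e7 : ex D ^ b ≤ ex D ^ (1 : ℝ) := Real.rpow_le_rpow_of_exponent_le hD5 hb1
        rw [Real.rpow_one] at e7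
        exact e7.trans (hD6.trans hD4)
      calc (D : ℝ) ^ (1 / (8 * (n : ℝ))) * (X * ex D) ^ b ≤ X ^ η * X ^ (b + η) :=
            mul_le_mul e4 e6 (Real.rpow_nonneg (by positivity) _) (Real.rpow_nonneg hX0.le _)
        _ = X ^ (b + 2 * η) := by
            rw [← Real.rpow_add hX0]; congr 1; ring
    have e8 : (D : ℝ) ^ (1 / (8 * (n : ℝ))) * ((X * ex D) ^ a / D) ≤
        X ^ a * ((D : ℝ) ^ (1 / (4 * (n : ℝ))) * ex D ^ a / D) := by
      rw [e2]
      have e9 : 0 ≤ X ^ a * ex D ^ a / D := by positivity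
      calc (D : ℝ) ^ (1 / (8 * (n : ℝ))) * (X ^ a * ex D ^ a / D) ≤
            (D : ℝ) ^ (1 / (4 * (n : ℝ))) * (X ^ a * ex D ^ a / D) :=
            mul_le_mul_of_nonneg_right e1 e9
        _ = _ := by ring
    calc C1 * (D : ℝ) ^ (1 / (8 * (n : ℝ))) * ((X * ex D) ^ a / D + (X * ex D) ^ b) =
          C1 * ((D : ℝ) ^ (1 / (8 * (n : ℝ))) * ((X * ex D) ^ a / D)) +
            C1 * ((D : ℝ) ^ (1 / (8 * (n : ℝ))) * (X * ex D) ^ b) := by ring
      _ ≤ _ := add_le_add (mul_le_mul_of_nonneg_left e8 hC1.le)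
          (mul_le_mul_of_nonneg_left e3 hC1.le)
  -- sum over `G`
  have hsum : (F.card : ℝ) ≤ ∑ D ∈ G,
      (((F.filter (fun x => Pool.Agent.H82.AS.sq (pr x) = D)).card : ℕ) : ℝ) := by
    have h5 : F.card = ∑ D ∈ G, (F.filter (fun x => Pool.Agent.H82.AS.sq (pr x) = D)).card :=
      Finset.card_eq_sum_card_image _ _
    rw [h5]
    push_cast
    exact le_rfl
  have hS' := hS Y G hY (fun D hD => by
    obtain ⟨hD1, hD2, hD3, -⟩ := hGp D hD
    exact ⟨hD1, hD2, hD3⟩)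
  have hXa : 0 ≤ X ^ a := Real.rpow_nonneg hX0.le _
  calc (F.card : ℝ) ≤ ∑ D ∈ G,
      (((F.filter (fun x => Pool.Agent.H82.AS.sq (pr x) = D)).card : ℕ) : ℝ) := hsum
    _ ≤ ∑ D ∈ G, (C1 * (X ^ a * ((D : ℝ) ^ (1 / (4 * (n : ℝ))) * ex D ^ a / D)) +
        C1 * (X ^ (b + 2 * η))) := Finset.sum_le_sum hfib
    _ = C1 * (X ^ a * ∑ D ∈ G, ((D : ℝ) ^ (1 / (4 * (n : ℝ))) * ex D ^ a / D)) +
        G.card * (C1 * (X ^ (b + 2 * η))) := by
        rw [Finset.sum_add_distrib, Finset.sum_const, nsmul_eq_mul, Finset.mul_sum, Finset.mul_sum]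
    _ ≤ C1 * (X ^ a * (C2 * Y ^ (-(1 / (8 * (n : ℝ)))))) +
        X ^ η * (C1 * (X ^ (b + 2 * η))) := by
        apply add_le_add
        · exact mul_le_mul_of_nonneg_left (mul_le_mul_of_nonneg_left hS' hXa) hC1.le
        · exact mul_le_mul_of_nonneg_right hGc (by positivity)
    _ = C1 * C2 * (Y ^ (-(1 / (8 * (n : ℝ)))) * X ^ a) + C1 * X ^ (b + 3 * η) := by
        have e1 : X ^ (b + 3 * η) = X ^ η * X ^ (b + 2 * η) := by
          rw [← Real.rpow_add hX0]; congr 1; ring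
        rw [e1]
        ring
    _ ≤ C1 * C2 * (Y ^ (-(1 / (8 * (n : ℝ)))) * X ^ a) +
        C1 * X ^ (a - 1 / (8 * (n : ℝ))) := by
        apply add_le_add le_rfl
        apply mul_le_mul_of_nonneg_left _ hC1.le
        apply Real.rpow_le_rpow_of_exponent_le hX
        rw [ha, hb, hη]
        have e2 : 0 < 1 / (n : ℝ) := by positivity
        have e3 : 3 * (1 / (6 * (n : ℝ))) = 1 / 2 * (1 / (n : ℝ)) := by field_simp; norm_num
        have e4 : 1 / (8 * (n : ℝ)) = 1 / 8 * (1 / (n : ℝ)) := by field_simp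
        have e5 : 2 / (n : ℝ) = 2 * (1 / (n : ℝ)) := by ring
        rw [e3, e4, e5]
        nlinarith
    _ ≤ (C1 * C2 + C1) * (Y ^ (-(1 / (8 * (n : ℝ)))) * X ^ a + X ^ (a - 1 / (8 * (n : ℝ)))) := by
        have e1 : 0 ≤ Y ^ (-(1 / (8 * (n : ℝ)))) * X ^ a := by positivity
        have e2 : 0 ≤ X ^ (a - 1 / (8 * (n : ℝ))) := by positivity
        have e3 : 0 < C1 * C2 := mul_pos hC1 hC2
        nlinarith [mul_nonneg e3.le e2, mul_nonneg hC1.le e1]

end Pool.Agent.H86.EQ.SQM
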