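import Pool.Agent.H71.EQ.Targets
import Pool.Agent.H40.EQ.BXN

/-!
# Equidistribution of admissible tuples, row LPR: large primes
-/

set_option autoImplicit false

open Finset

namespace Pool.Agent.H86.EQ.LPR

open Pool.Agent.H71.EQ

theorem ext_sum {k : ℕ} (v : Fin k → ℤ) : ∑ i, ext v i = 0 := by
  unfold H71.EQ.ext
  rw [Fin.sum_univ_castSucc]
  simp

theorem ext_inj {k : ℕ} (c : Fin (k + 1)) (v w : Fin k → ℤ)
    (h : ∀ i, i ≠ c → ext v i = ext w i) : v = w := by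
  have h1 : ext v c = ext w c := by
    have hv := ext_sum v
    have hw := ext_sum w
    rw [← Finset.add_sum_erase _ _ (Finset.mem_univ c)] at hv hw
    have h2 : ∑ i ∈ univ.erase c, ext v i = ∑ i ∈ univ.erase c, ext w i :=
      Finset.sum_congr rfl fun i hi => h i (Finset.ne_of_mem_erase hi)
    rw [h2] at hv
    linarith
  funext i
  have h2 : ext v i.castSucc = ext w i.castSucc := by
    by_cases hc : i.castSucc = c
    · rw [hc]; exact h1
    · exact h _ hc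
  simpa [H71.EQ.ext] using h2

/-- the vectors with given divisors of all entries but one, in a box -/
def BS (k : ℕ) (c : Fin (k + 1)) (d : Fin (k + 1) → ℕ) (R : ℝ) : Set (Fin k → ℤ) :=
  {v | ∀ i, i ≠ c → ext v i ≠ 0 ∧ |(ext v i : ℝ)| ≤ R ∧ (d i : ℤ) ∣ ext v i}

theorem box {k : ℕ} (c : Fin (k + 1)) (d : Fin (k + 1) → ℕ) (hd : ∀ i, 1 ≤ d i) (R : ℝ)
    (hR : 0 ≤ R) : (BS k c d R).Finite ∧
    ((BS k c d R).ncard : ℝ) ≤ ∏ i ∈ univ.erase c, (2 * R / (d i : ℝ)) := by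
  classical
  set T : {i // i ≠ c} → Finset ℤ := fun i =>
    (Finset.Icc (-⌊R⌋) ⌊R⌋).filter fun y => y ≠ 0 ∧ ((d i.1 : ℕ) : ℤ) ∣ y ∧ |(y : ℝ)| ≤ R with hT
  set φ : (Fin k → ℤ) → ({i // i ≠ c} → ℤ) := fun v i => ext v i.1 with hφ
  have hinj : Function.Injective φ := by
    intro v w hvw
    apply ext_inj c
    intro i hi
    exact congrFun hvw ⟨i, hi⟩
  have hmem : ∀ v ∈ BS k c d R, φ v ∈ ((Fintype.piFinset T : Finset _) : Set ({i // i ≠ c} → ℤ)) := by
    intro v hv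
    rw [Finset.mem_coe, Fintype.mem_piFinset]
    intro i
    obtain ⟨h1, h2, h3⟩ := hv i.1 i.2
    have h4 := abs_le.1 h2
    rw [hT, Finset.mem_filter, Finset.mem_Icc]
    refine ⟨⟨?_, ?_⟩, h1, h3, h2⟩
    · have h5 : -(ext v i.1) ≤ ⌊R⌋ := Int.le_floor.2 (by push_cast; linarith [h4.1])
      simp only [hφ]
      linarith
    · exact Int.le_floor.2 h4.2
  have hfin : ((Fintype.piFinset T : Finset _) : Set ({i // i ≠ c} → ℤ)).Finite :=
    Finset.finite_toSet _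
  refine ⟨Set.Finite.of_finite_image (hfin.subset (by
    rintro _ ⟨v, hv, rfl⟩
    exact hmem v hv)) hinj.injOn, ?_⟩
  have h1 := Set.ncard_le_ncard_of_injOn φ hmem hinj.injOn hfin
  rw [Set.ncard_coe_finset, Fintype.card_piFinset] at h1
  have h2 : ((BS k c d R).ncard : ℝ) ≤ ∏ i, ((T i).card : ℝ) := by exact_mod_cast h1
  refine h2.trans ?_
  have h3 : ∏ i : {i // i ≠ c}, ((T i).card : ℝ) ≤ ∏ i : {i // i ≠ c}, (2 * R / (d i.1 : ℝ)) := by
    apply Finset.prod_le_prod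
    · intro i _; positivity
    · intro i _
      refine Pool.Agent.H40.EQ.card_mult (d i.1) (hd i.1) R hR (T i) ?_
      intro s hs
      rw [hT, Finset.mem_filter] at hs
      exact ⟨hs.2.1, hs.2.2.1, hs.2.2.2⟩
  refine h3.trans (le_of_eq ?_)
  rw [← Finset.prod_subtype (univ.erase c) (fun x => by simp) (fun i => 2 * R / (d i : ℝ))]

/-- the vectors for which a prime `p > z` violates the condition at the places `a`, `b` -/
def VS (k : ℕ) (a b : Fin (k + 1)) (m : ℕ) (R : ℝ) : Set (Fin k → ℤ) :=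
  {v | (∀ i, ext v i ≠ 0 ∧ |(ext v i : ℝ)| ≤ R) ∧
    (if a = b then ((m : ℤ) ^ 2 ∣ ext v a) else ((m : ℤ) ∣ ext v a ∧ (m : ℤ) ∣ ext v b))}

theorem vs_card {k : ℕ} (hk : 2 ≤ k) (a b : Fin (k + 1)) (m : ℕ) (hm : 1 ≤ m) (R : ℝ)
    (hR : 0 ≤ R) : (VS k a b m R).Finite ∧
    ((VS k a b m R).ncard : ℝ) ≤ 2 ^ k * R ^ k * (((m : ℝ) ^ 2)⁻¹) := by
  classical
  have hm0 : (0 : ℝ) < m := by exact_mod_cast hm
  -- the index which is deleted
  obtain ⟨c, hca, hcb⟩ : ∃ c : Fin (k + 1), c ≠ a ∧ c ≠ b := by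
    by_contra hcon
    push Not at hcon
    have h1 : (univ : Finset (Fin (k + 1))) ⊆ {a, b} := by
      intro c _
      rw [Finset.mem_insert, Finset.mem_singleton]
      by_cases h : c = a
      · exact Or.inl h
      · exact Or.inr (hcon c h)
    have h2 := Finset.card_le_card h1
    rw [Finset.card_univ, Fintype.card_fin] at h2
    have h3 := Finset.card_le_two (a := a) (b := b)
    omega
  set d : Fin (k + 1) → ℕ := fun i =>
    if a = b then (if i = a then m ^ 2 else 1) else (if i = a ∨ i = b then m else 1) with hd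
  have hd1 : ∀ i, 1 ≤ d i := by
    intro i
    simp only [hd]
    split_ifs <;> first | exact Nat.one_le_pow _ _ hm | exact hm | exact le_rfl
  obtain ⟨hf, hc⟩ := box c d hd1 R hR
  have hsub : VS k a b m R ⊆ BS k c d R := by
    intro v hv i _
    refine ⟨(hv.1 i).1, (hv.1 i).2, ?_⟩
    have hv2 := hv.2
    simp only [hd]
    by_cases hab : a = b
    · rw [if_pos hab] at hv2 ⊢
      by_cases hia : i = a
      · rw [if_pos hia, hia]; push_cast; exact hv2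
      · rw [if_neg hia]; simp
    · rw [if_neg hab] at hv2 ⊢
      by_cases hia : i = a ∨ i = b
      · rw [if_pos hia]
        rcases hia with h | h
        · rw [h]; exact hv2.1
        · rw [h]; exact hv2.2
      · rw [if_neg hia]; simp
  refine ⟨hf.subset hsub, ?_⟩
  have h1 : ((VS k a b m R).ncard : ℝ) ≤ ((BS k c d R).ncard : ℝ) := by
    exact_mod_cast Set.ncard_le_ncard hsub hf
  refine h1.trans (hc.trans (le_of_eq ?_))
  rw [Finset.prod_div_distrib, Finset.prod_const, Finset.card_erase_of_mem (Finset.mem_univ _),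
    Finset.card_univ, Fintype.card_fin, Nat.add_sub_cancel, mul_pow, div_eq_mul_inv]
  congr 2
  -- the product of the divisors
  by_cases hab : a = b
  · have h2 : ∀ i ∈ univ.erase c, (d i : ℝ) = if i = a then (m : ℝ) ^ 2 else 1 := by
      intro i _
      simp only [hd, if_pos hab]
      split_ifs <;> simp
    rw [Finset.prod_congr rfl h2, Finset.prod_ite_eq' (univ.erase c) a (fun _ => (m : ℝ) ^ 2),
      if_pos (Finset.mem_erase.2 ⟨hca.symm, Finset.mem_univ _⟩)]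
  · have h2 : ∀ i ∈ univ.erase c, (d i : ℝ) = (if i = a then (m : ℝ) else 1) *
        (if i = b then (m : ℝ) else 1) := by
      intro i _
      simp only [hd, if_neg hab]
      by_cases hia : i = a
      · have hib : i ≠ b := fun h => hab (hia.symm.trans h)
        simp [hia, hab]
      · by_cases hib : i = b
        · simp [hib, Ne.symm hab]
        · simp [hia, hib]
    rw [Finset.prod_congr rfl h2, Finset.prod_mul_distrib,
      Finset.prod_ite_eq' (univ.erase c) a (fun _ => (m : ℝ)),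
      Finset.prod_ite_eq' (univ.erase c) b (fun _ => (m : ℝ)),
      if_pos (Finset.mem_erase.2 ⟨hca.symm, Finset.mem_univ _⟩),
      if_pos (Finset.mem_erase.2 ⟨hcb.symm, Finset.mem_univ _⟩)]
    ring

theorem pf_LPR : T_LPR := by
  intro k hk
  refine ⟨((k : ℝ) + 1) ^ 2 * 2 ^ k, by positivity, ?_⟩
  intro z R hz hR
  have hR0 : 0 ≤ R := by linarith
  classical
  set S : Set (Fin k → ℤ) := {v : Fin k → ℤ | (∀ i, ext v i ≠ 0 ∧ |(ext v i : ℝ)| ≤ R) ∧
    ∃ p : ℕ, p.Prime ∧ z < p ∧ ¬ Loc p 0 (ext v)} with hS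
  set I : Finset ((Fin (k + 1) × Fin (k + 1)) × ℕ) :=
    univ ×ˢ Finset.Ioc z (max z ⌊R⌋₊) with hI
  have hsub : S ⊆ ⋃ t ∈ I, VS k t.1.1 t.1.2 t.2 R := by
    intro v hv
    obtain ⟨hv1, p, hp, hzp, hL⟩ := hv
    have key : ∃ a b : Fin (k + 1), (if a = b then ((p : ℤ) ^ 2 ∣ ext v a) else
        ((p : ℤ) ∣ ext v a ∧ (p : ℤ) ∣ ext v b)) := by
      unfold Loc at hL
      rw [if_pos rfl] at hL
      rw [not_and_or] at hL
      rcases hL with h | h
      · push Not at h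
        obtain ⟨a, b, hab, h1, h2⟩ := h
        exact ⟨a, b, by rw [if_neg hab]; exact ⟨h1, h2⟩⟩
      · push Not at h
        obtain ⟨a, ha⟩ := h
        exact ⟨a, a, by rw [if_pos rfl]; exact ha⟩
    obtain ⟨a, b, hab⟩ := key
    have hpa : (p : ℤ) ∣ ext v a := by
      by_cases h : a = b
      · rw [if_pos h] at hab
        exact (dvd_pow_self _ two_ne_zero).trans hab
      · rw [if_neg h] at hab
        exact hab.1
    have hpR : (p : ℝ) ≤ R := by
      have h1 : (p : ℤ) ≤ |ext v a| :=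
        Int.le_of_dvd (abs_pos.2 (hv1 a).1) ((dvd_abs _ _).2 hpa)
      have h2 : (p : ℝ) ≤ |(ext v a : ℝ)| := by exact_mod_cast h1
      exact h2.trans (hv1 a).2
    rw [Set.mem_iUnion₂]
    refine ⟨((a, b), p), ?_, hv1, hab⟩
    rw [hI, Finset.mem_product]
    exact ⟨Finset.mem_univ _, Finset.mem_Ioc.2 ⟨hzp, le_max_of_le_right (Nat.le_floor hpR)⟩⟩
  have hV : ∀ t ∈ I, (VS k t.1.1 t.1.2 t.2 R).Finite ∧
      ((VS k t.1.1 t.1.2 t.2 R).ncard : ℝ) ≤ 2 ^ k * R ^ k * (((t.2 : ℝ) ^ 2)⁻¹) := by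
    intro t ht
    rw [hI, Finset.mem_product, Finset.mem_Ioc] at ht
    exact vs_card hk _ _ _ (by omega) R hR0
  have hfin : (⋃ t ∈ I, VS k t.1.1 t.1.2 t.2 R).Finite :=
    Set.Finite.biUnion (Finset.finite_toSet I) fun t ht => (hV t ht).1
  refine ⟨hfin.subset hsub, ?_⟩
  have h1 : (S.ncard : ℝ) ≤ ((⋃ t ∈ I, VS k t.1.1 t.1.2 t.2 R).ncard : ℝ) := by
    exact_mod_cast Set.ncard_le_ncard hsub hfin
  have h2 : ((⋃ t ∈ I, VS k t.1.1 t.1.2 t.2 R).ncard : ℝ) ≤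
      ∑ t ∈ I, ((VS k t.1.1 t.1.2 t.2 R).ncard : ℝ) := by
    have h3 := Finset.set_ncard_biUnion_le I fun t => VS k t.1.1 t.1.2 t.2 R
    exact_mod_cast h3
  have h3 : ∑ t ∈ I, ((VS k t.1.1 t.1.2 t.2 R).ncard : ℝ) ≤
      ∑ t ∈ I, 2 ^ k * R ^ k * (((t.2 : ℝ) ^ 2)⁻¹) := Finset.sum_le_sum fun t ht => (hV t ht).2
  have h4 : ∑ t ∈ I, 2 ^ k * R ^ k * (((t.2 : ℝ) ^ 2)⁻¹) =
      ((k : ℝ) + 1) ^ 2 * (2 ^ k * R ^ k * ∑ m ∈ Finset.Ioc z (max z ⌊R⌋₊), (((m : ℝ) ^ 2)⁻¹)) := by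
    rw [hI, Finset.sum_product]
    have h5 : ∀ x ∈ (univ : Finset (Fin (k + 1) × Fin (k + 1))),
        ∑ y ∈ Ioc z (max z ⌊R⌋₊), 2 ^ k * R ^ k * (((((x, y) :
          (Fin (k + 1) × Fin (k + 1)) × ℕ)).2 : ℝ) ^ 2)⁻¹ =
        2 ^ k * R ^ k * ∑ m ∈ Finset.Ioc z (max z ⌊R⌋₊), (((m : ℝ) ^ 2)⁻¹) := by
      intro x _
      rw [Finset.mul_sum]
    rw [Finset.sum_congr rfl h5, Finset.sum_const, Finset.card_univ, Fintype.card_prod,
      Fintype.card_fin, nsmul_eq_mul]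
    push_cast
    ring
  have h5 : ∑ m ∈ Finset.Ioc z (max z ⌊R⌋₊), (((m : ℝ) ^ 2)⁻¹) ≤ (z : ℝ)⁻¹ := by
    have h6 := sum_Ioc_inv_sq_le_sub (α := ℝ) (k := z) (n := max z ⌊R⌋₊) (by omega)
      (le_max_left _ _)
    have h7 : 0 ≤ (((max z ⌊R⌋₊ : ℕ) : ℝ))⁻¹ := by positivity
    linarith
  calc (S.ncard : ℝ) ≤ _ := h1
    _ ≤ _ := h2
    _ ≤ _ := h3
    _ = _ := h4
    _ ≤ ((k : ℝ) + 1) ^ 2 * (2 ^ k * R ^ k * (z : ℝ)⁻¹) := by
        apply mul_le_mul_of_nonneg_left _ (by positivity)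
        exact mul_le_mul_of_nonneg_left h5 (by positivity)
    _ = ((k : ℝ) + 1) ^ 2 * 2 ^ k * R ^ k / z := by ring

end Pool.Agent.H86.EQ.LPR
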