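import Pool.Agent.H38.EQ.Targets

/-!
# Equidistribution of admissible tuples, row TGT: no mass escapes
-/

set_option autoImplicit false

open Finset Filter

namespace Pool.Agent.H86.EQ

open Pool.Agent.H38.AE.Statement (Admissible radical)
open Pool.Agent.H38.AT (height)
open Pool.Agent.H82.AS (Sqf ex)
open Pool.Agent.H38.EQ

theorem pr_pos {n : ℕ} {x : Fin n → ℤ} (hx : Admissible x) : 1 ≤ pr x := by
  unfold pr
  have h : (∏ i, x i) ≠ 0 := Finset.prod_ne_zero_iff.2 fun i _ => hx.1 i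
  exact Nat.one_le_iff_ne_zero.2 (Int.natAbs_ne_zero.2 h)

theorem rad_mul_ex {n : ℕ} {x : Fin n → ℤ} :
    (pr x : ℝ) = (radical (∏ i, x i) : ℝ) * ex (pr x) := by
  have h1 : (radical (∏ i, x i)) = Pool.Agent.H38.PS.pd (pr x).primeFactors := rfl
  have h2 : (0 : ℝ) < (Pool.Agent.H38.PS.pd (pr x).primeFactors : ℝ) := by
    have : 0 < Pool.Agent.H38.PS.pd (pr x).primeFactors :=
      Finset.prod_pos fun _ hp => (Nat.prime_of_mem_primeFactors hp).pos
    exact_mod_cast this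
  rw [h1]
  unfold ex
  field_simp

theorem pf_TGT (h1 : T_SQL) (h2 : T_SQM) (h3 : T_HTL) (h4 : Pool.Agent.H82.AS.T_SQB) :
    T_TGT := by
  intro n hn
  obtain ⟨η, c1, C1, hη, hc1, hC1, hM⟩ := h2 n hn
  obtain ⟨ε₀, c2, C2, hε₀, hc2, hC2, hL⟩ := h1 n hn η hη
  refine ⟨ε₀, hε₀, ?_⟩
  intro ε hε
  -- a power which is small
  have key : ∀ C c : ℝ, 0 < C → 0 < c → ∃ Z : ℝ, 1 ≤ Z ∧ ∀ t : ℝ, Z ≤ t → C * t ^ (-c) ≤ ε / 8 := by
    intro C c hC hc
    have ht := (tendsto_rpow_neg_atTop hc).const_mul C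
    rw [mul_zero] at ht
    have hev := ht.eventually (gt_mem_nhds (show (0 : ℝ) < ε / 8 by positivity))
    obtain ⟨Z, hZ⟩ := eventually_atTop.1 hev
    exact ⟨max Z 1, le_max_right _ _, fun t ht => (hZ t ((le_max_left _ _).trans ht)).le⟩
  obtain ⟨Y, hY1, hY⟩ := key C1 c1 hC1 hc1
  obtain ⟨C3, hC3, hH⟩ := h3 n hn Y hY1
  obtain ⟨lam, hlam1, hlam⟩ := key C3 (1 / 2) hC3 (by norm_num)
  obtain ⟨X1, hX11, hX1⟩ := key C1 c1 hC1 hc1
  obtain ⟨X2, hX21, hX2⟩ := key C2 c2 hC2 hc2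
  refine ⟨Y, lam, max X1 X2, hY1, hlam1, hX11.trans (le_max_left _ _), ?_⟩
  intro X F hX hF
  have hX1' : X1 ≤ X := (le_max_left _ _).trans hX
  have hX2' : X2 ≤ X := (le_max_right _ _).trans hX
  have hX1pos : 1 ≤ X := hX11.trans hX1'
  have hX0 : 0 < X := by linarith
  set P : ℝ := X ^ (1 - 1 / (n : ℝ)) with hP
  have hP0 : 0 < P := Real.rpow_pos_of_pos hX0 _
  classical
  set F1 := F.filter (fun x => X ^ η < (Pool.Agent.H82.AS.sq (pr x) : ℝ)) with hF1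
  set F2 := F.filter (fun x => Y ≤ (Pool.Agent.H82.AS.sq (pr x) : ℝ) ∧
    (Pool.Agent.H82.AS.sq (pr x) : ℝ) ≤ X ^ η) with hF2
  set F3 := F.filter (fun x => (Pool.Agent.H82.AS.sq (pr x) : ℝ) < Y) with hF3
  have hsub : F ⊆ F1 ∪ F2 ∪ F3 := by
    intro x hx
    rw [Finset.mem_union, Finset.mem_union, hF1, hF2, hF3, Finset.mem_filter, Finset.mem_filter,
      Finset.mem_filter]
    by_cases ha : X ^ η < (Pool.Agent.H82.AS.sq (pr x) : ℝ)
    · exact Or.inl (Or.inl ⟨hx, ha⟩)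
    · by_cases hb : Y ≤ (Pool.Agent.H82.AS.sq (pr x) : ℝ)
      · exact Or.inl (Or.inr ⟨hx, hb, not_lt.1 ha⟩)
      · exact Or.inr ⟨hx, not_le.1 hb⟩
  have hcard : (F.card : ℝ) ≤ F1.card + F2.card + F3.card := by
    have h5 : F.card ≤ F1.card + F2.card + F3.card :=
      (Finset.card_le_card hsub).trans ((Finset.card_union_le _ _).trans
        (Nat.add_le_add_right (Finset.card_union_le _ _) _))
    exact_mod_cast h5
  have hsplit : ∀ c : ℝ, X ^ (1 - 1 / (n : ℝ) - c) = X ^ (-c) * P := by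
    intro c
    rw [hP, ← Real.rpow_add hX0]
    congr 1
    ring
  have b1 : (F1.card : ℝ) ≤ ε / 8 * P := by
    have h5 := hL X F1 hX1pos (fun x hx => by
      rw [hF1, Finset.mem_filter] at hx
      exact ⟨(hF x hx.1).1, (hF x hx.1).2.2.1, hx.2⟩)
    rw [hsplit, ← mul_assoc] at h5
    exact h5.trans (mul_le_mul_of_nonneg_right (hX2 X hX2') hP0.le)
  have b2 : (F2.card : ℝ) ≤ ε / 8 * P + ε / 8 * P := by
    have h5 := hM X Y F2 hX1pos hY1 (fun x hx => by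
      rw [hF2, Finset.mem_filter] at hx
      exact ⟨(hF x hx.1).1, (hF x hx.1).2.1, hx.2.1, hx.2.2⟩)
    rw [hsplit, mul_add, ← mul_assoc, ← mul_assoc] at h5
    exact h5.trans (add_le_add (mul_le_mul_of_nonneg_right (hY Y le_rfl) hP0.le)
      (mul_le_mul_of_nonneg_right (hX1 X hX1') hP0.le))
  have b3 : (F3.card : ℝ) ≤ ε / 8 * P := by
    have h5 := hH X lam F3 hX1pos hlam1 (fun x hx => by
      rw [hF3, Finset.mem_filter] at hx
      have hx1 := hF x hx.1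
      refine ⟨hx1.1, hx1.2.1, hx.2.le, ?_⟩
      rcases hx1.2.2.2 with h6 | h6
      · exfalso
        have hp := pr_pos hx1.1
        obtain ⟨hs1, hs2, hs3, -⟩ := h4 (pr x) hp
        have hs0 : 1 ≤ Pool.Agent.H82.AS.sq (pr x) := Nat.pos_of_dvd_of_pos hs2 hp
        have hs4 := (h4 _ hs0).2.2.2.2.2.1
        rw [hs3] at hs4
        linarith [hx.2]
      · exact h6)
    exact h5.trans (mul_le_mul_of_nonneg_right (hlam lam le_rfl) hP0.le)
  have hεP : 0 < ε * P := mul_pos hε hP0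
  nlinarith [hcard, b1, b2, b3]

end Pool.Agent.H86.EQ
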